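import Mathlib
import Pool.Agent.H790R2.TipMain

/-!
# MP_2e7b1e_an: the supremum of the tip angles of slit maps with the slit in a sector is `π`

`absTips α` is the set of all `|φ_f|`, where `f` runs through the functions of class `S` whose omitted
set is a slit (a Jordan arc from the finite point `ω₀` to `∞` made up of finitely many analytic arcs)
that lies in an infinite sector with vertex `ω₀` and opening angle `α π`, with `f (-1) = ∞` and
`f (e^{i φ_f}) = ω₀`.  For every `α > 0` this set is the interval `[0, π)`.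
-/

set_option autoImplicit false

open Set Filter Topology Complex Metric
open Pool.Agent.H790R2.Tip

namespace Pool.Agent.Results.MP_2e7b1e_an.TipSupremumPi

/-- The curve `γ` lies in a closed infinite sector with vertex `γ 0` and opening angle `α π`. -/
def InSector (α : ℝ) (γ : ℝ → ℂ) : Prop :=
  ∃ θ₀ : ℝ, ∀ ω ∈ γ '' Ici 0, ω ≠ γ 0 →
    ∃ θ ∈ Icc θ₀ (θ₀ + α * Real.pi), ω - γ 0 = ‖ω - γ 0‖ * exp (θ * I)

/-- The set of the numbers `|φ_f|`, `f ∈ Σ_α`, `f (-1) = ∞`. -/
def absTips (α : ℝ) : Set ℝ :=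
  {x | ∃ φ : ℝ, -Real.pi < φ ∧ φ < Real.pi ∧ x = |φ| ∧
    ∃ (f : ℂ → ℂ) (γ : ℝ → ℂ), IsSlitMap f γ ∧ InSector α γ ∧ HasTipAt f (γ 0) φ}

/-- `Φ(α) = π` for all `α > 0`: the numbers `|φ_f|` fill the interval `[0, π)`, so that the supremum is
`π` and is not attained. -/
theorem result (α : ℝ) (hα : 0 < α) :
    absTips α = Ico 0 Real.pi ∧ sSup (absTips α) = Real.pi ∧ Real.pi ∉ absTips α := by
  have hset : absTips α = Ico 0 Real.pi := by
    ext x
    constructor
    · rintro ⟨φ, h1, h2, rfl, -⟩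
      exact ⟨abs_nonneg _, abs_lt.2 ⟨h1, h2⟩⟩
    · rintro ⟨h1, h2⟩
      have hψ : 0 < Real.cos (x / 2) := Real.cos_pos_of_mem_Ioo ⟨by linarith, by linarith⟩
      refine ⟨x, by linarith, h2, (abs_of_nonneg h1).symm, hl (x / 2), γhl (x / 2),
        hl_isSlitMap hψ, ⟨-(x / 2), ?_⟩, ?_⟩
      · rintro ω ⟨t, ht, rfl⟩ -
        have ht' : 0 ≤ t := ht
        refine ⟨-(x / 2), ⟨le_rfl, by have := mul_pos hα Real.pi_pos; linarith⟩, ?_⟩
        rw [γhl_sub]
        have e1 : ee (-(x / 2)) = exp (((-(x / 2) : ℝ) : ℂ) * I) := rfl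
        rw [e1, norm_mul, norm_exp_ofReal_mul_I, mul_one, norm_real, Real.norm_eq_abs,
          abs_of_nonneg ht']
      · have := hl_hasTipAt hψ
        rwa [mul_div_cancel₀ x (two_ne_zero)] at this
  refine ⟨hset, ?_, ?_⟩
  · rw [hset, csSup_Ico Real.pi_pos]
  · rw [hset]; exact fun h => lt_irrefl _ h.2

end Pool.Agent.Results.MP_2e7b1e_an.TipSupremumPi
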